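import Pool.Agent.H2.ED.Targets
import Pool.Agent.H8.TD.All

/-!
# Row INM: the degrees of rational functions in linear systems
-/

set_option autoImplicit false

open MvPolynomial
open Pool.Agent.H8.TD (lc dg Wsp)

namespace Pool.Agent.H73.ED

theorem range_update {K : Type} {n : ℕ} (z : Fin (n + 1) → K) (m : Fin (n + 1)) (c : K) :
    Set.range (Function.update z m c) = insert c (Set.range fun j => z (m.succAbove j)) := by
  ext x
  rw [Set.mem_insert_iff]
  constructor
  · rintro ⟨i, rfl⟩
    rcases Fin.eq_self_or_eq_succAbove m i with h | ⟨j, h⟩
    · rw [h, Function.update_self]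
      exact Or.inl rfl
    · rw [h, Function.update_of_ne (Fin.succAbove_ne m j)]
      exact Or.inr ⟨j, rfl⟩
  · rintro (rfl | ⟨j, rfl⟩)
    · exact ⟨m, Function.update_self m _ z⟩
    · exact ⟨m.succAbove j, Function.update_of_ne (Fin.succAbove_ne m j) _ z⟩

theorem not_alg {k K : Type} [Field k] [Field K] [Algebra k K] {n : ℕ}
    (htr : Algebra.trdeg k K = (n + 1 : ℕ)) (B : Fin n → K)
    (h : Algebra.IsAlgebraic (IntermediateField.adjoin k (Set.range B)) K) : False := by
  have h1 := Pool.Agent.H14.TD.alg_trans (Set.range B) B h (fun i =>
    isAlgebraic_algebraMap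
      (⟨_, Algebra.subset_adjoin ⟨i, rfl⟩⟩ : Algebra.adjoin k (Set.range B)))
  have h2 := Algebra.IsAlgebraic.trdeg_le_cardinalMk k (Set.range B)
  have h3 := h2.trans Cardinal.mk_range_le
  rw [htr, Cardinal.mk_fin] at h3
  have h4 : n + 1 ≤ n := by exact_mod_cast h3
  omega

theorem totalDegree_map_le' {σ R S : Type} [CommRing R] [CommRing S] (f : R →+* S)
    (p : MvPolynomial σ R) : (MvPolynomial.map f p).totalDegree ≤ p.totalDegree := by
  classical
  exact Finset.sup_mono (MvPolynomial.support_map_subset f p)

theorem step {k K : Type} [Field k] [CharZero k] [Field K] [Algebra k K] {n a Y δ : ℕ}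
    (htr : Algebra.trdeg k K = n) (z : Fin n → K) (m : Fin n) (φ : Fin a → K)
    (P P₀ : MvPolynomial (Fin a) k) (hP : P.totalDegree ≤ δ) (hP₀ : P₀.totalDegree ≤ δ)
    (h0 : aeval φ P₀ ≠ 0)
    (h : ∀ s : Fin a → k, dg k (Set.range (Function.update z m (lc s φ))) ≤ Y) :
    dg k (Set.range (Function.update z m (aeval φ P / aeval φ P₀))) ≤ δ * Y := by
  cases n with
  | zero => exact m.elim0
  | succ n =>
    set B : Fin n → K := fun j => z (m.succAbove j) with hB
    set κ := IntermediateField.adjoin k (Set.range B) with hκ
    have hins : ∀ c : K, dg k (Set.range (Function.update z m c)) = dg κ {c} := by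
      intro c
      rw [range_update]
      exact (Pool.Agent.H8.TD.Al.adj k K (Set.range B) c).symm
    rw [hins]
    by_cases hy : ∃ y : K, FiniteDimensional (IntermediateField.adjoin κ {y}) K
    · have ht : ∃ y : K, Transcendental κ y := by
        by_contra hcon
        push Not at hcon
        refine not_alg htr B ⟨fun x => ?_⟩
        have := hcon x
        unfold Transcendental at this
        push Not at this
        exact this
      have hch : CharZero κ := charZero_of_injective_algebraMap (algebraMap k κ).injective
      have h1 := Pool.Agent.H8.TD.Al.pdg k κ K a φ Y δ (MvPolynomial.map (algebraMap k κ) P)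
        (MvPolynomial.map (algebraMap k κ) P₀) hy ht (fun s => by rw [← hins]; exact h s)
        ((totalDegree_map_le' _ _).trans hP) ((totalDegree_map_le' _ _).trans hP₀)
        (by rw [MvPolynomial.aeval_map_algebraMap]; exact h0)
      rw [MvPolynomial.aeval_map_algebraMap, MvPolynomial.aeval_map_algebraMap] at h1
      exact h1
    · have h1 : ¬ Module.Finite (IntermediateField.adjoin κ {aeval φ P / aeval φ P₀}) K :=
        fun h => hy ⟨_, h⟩
      have h2 : dg κ {aeval φ P / aeval φ P₀} = 0 := by
        unfold dg
        exact Module.finrank_of_not_finite h1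
      rw [h2]
      exact Nat.zero_le _

theorem pf_INM : Pool.Agent.H2.ED.T_INM := by
  classical
  intro k K _ _ _ _ n a Y φ p p₀ δ _ htr hY hp hp₀ h0
  set val : Fin n → K := fun i => aeval (φ i) (p i) / aeval (φ i) (p₀ i) with hval
  have key : ∀ A : Finset (Fin n), ∀ s : Fin n → Fin a → k,
      dg k (Set.range fun i => if i ∈ A then val i else lc (s i) (φ i)) ≤
        (∏ i ∈ A, δ i) * Y := by
    intro A
    induction A using Finset.induction_on with
    | empty =>
      intro s
      simp only [Finset.notMem_empty, if_false, Finset.prod_empty, one_mul]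
      exact hY s
    | insert m A hm ih =>
      intro s
      have e1 : (fun i => if i ∈ insert m A then val i else lc (s i) (φ i)) =
          Function.update (fun i => if i ∈ A then val i else lc (s i) (φ i)) m (val m) := by
        funext i
        by_cases hi : i = m
        · subst hi
          rw [Function.update_self, if_pos (Finset.mem_insert_self _ _)]
        · rw [Function.update_of_ne hi]
          simp only [Finset.mem_insert, hi, false_or]
      rw [e1, Finset.prod_insert hm, mul_assoc]
      apply step htr _ m (φ m) (p m) (p₀ m) (hp m) (hp₀ m) (h0 m)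
      intro t
      have e2 : Function.update (fun i => if i ∈ A then val i else lc (s i) (φ i)) m
          (lc t (φ m)) = fun i => if i ∈ A then val i else
            lc (Function.update s m t i) (φ i) := by
        funext i
        by_cases hi : i = m
        · subst hi
          rw [Function.update_self, if_neg hm, Function.update_self]
        · rw [Function.update_of_ne hi, Function.update_of_ne hi]
      rw [e2]
      exact ih _
  have h1 := key Finset.univ fun _ _ => 0
  simp only [Finset.mem_univ, if_true] at h1
  exact h1

end Pool.Agent.H73.ED
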